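import Pool.Agent.Helper76.TC2.Goals

/-!
# Project TC2 (MP_ccd65d_gt), packet G2: geodesics
-/

set_option autoImplicit false

open Set Filter Topology

namespace Pool.Agent.Helper66.TC2.G2

open Pool.Agent.Helper76.TC2

theorem t (hCC : S_CC) (hG1 : S_G1) (hIB : S_IB) : S_G2 := by
  intro n A d hB hQ x y
  obtain ⟨cat, -, -, dle, mono, one⟩ := hCC n d hB
  obtain ⟨ib1, ib2, ib3, -⟩ := hIB n A d hB hQ
  obtain ⟨c, C0, hc, hbl⟩ := hB.bilip
  set C : ℝ := max C0 0 with hC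
  have hC0 : 0 ≤ C := le_max_right _ _
  have hd0 : ∀ u v, 0 ≤ d u v := fun u v =>
    (mul_nonneg hc.le (norm_nonneg _)).trans (hbl u v).1
  have hdC : ∀ u v, d u v ≤ C * ‖u - v‖ := fun u v =>
    (hbl u v).2.trans (mul_le_mul_of_nonneg_right (le_max_left _ _) (norm_nonneg _))
  set D : ℝ := ii n d x y with hD
  have hD0 : 0 ≤ D := (hd0 x y).trans (ib1 x y)
  have hη : ∀ j : ℕ, (0 : ℝ) < 1 / ((j : ℝ) + 1) := fun j => by positivity
  have hη1 : ∀ j : ℕ, (1 : ℝ) / ((j : ℝ) + 1) ≤ 1 := fun j => by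
    rw [div_le_one (by positivity)]
    have : (0 : ℝ) ≤ j := Nat.cast_nonneg j
    linarith
  have hgs : ∀ j : ℕ, ∃ g : ℝ → (Fin n → ℝ), g 0 = x ∧
      Chn n d (1 / ((j : ℝ) + 1)) (1 / ((j : ℝ) + 1) + C * (1 / ((j : ℝ) + 1))) (g D) y ∧
      ∀ s t : ℝ, 0 ≤ s → s ≤ t → t ≤ D →
        Chn n d (1 / ((j : ℝ) + 1)) (t - s + C * (1 / ((j : ℝ) + 1))) (g s) (g t) := by
    intro j
    have h1 : Adm n d (D + 1 / ((j : ℝ) + 1)) x y := ib3 _ _ _ (by
      have := hη j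
      linarith)
    refine hG1 n d C (1 / ((j : ℝ) + 1)) D x y (hη j) hD0 hd0 (fun u v huv => ?_) (h1 _ (hη j))
    exact (hdC u v).trans (mul_le_mul_of_nonneg_left huv hC0)
  choose g hg0 hgD hg using hgs
  -- bounds
  have hK : ∀ (j : ℕ) (t : ℝ), 0 ≤ t → t ≤ D → g j t ∈ Metric.closedBall x ((D + C) / c) := by
    intro j t h0 h1
    have h2 := dle _ _ _ _ (hg j 0 t le_rfl h0 h1)
    rw [hg0 j] at h2
    have h3 := (hbl x (g j t)).1
    rw [mem_closedBall_iff_norm', le_div_iff₀ hc]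
    have h4 : C * (1 / ((j : ℝ) + 1)) ≤ C * 1 := mul_le_mul_of_nonneg_left (hη1 j) hC0
    nlinarith
  have hlim : ∀ t : ℝ, ∃ a, 0 ≤ t → t ≤ D →
      Tendsto (fun j => g j t) (hyperfilter ℕ : Filter ℕ) (𝓝 a) := by
    intro t
    by_cases h : 0 ≤ t ∧ t ≤ D
    · obtain ⟨a, -, ha⟩ := (isCompact_closedBall x ((D + C) / c)).ultrafilter_le_nhds
        ((hyperfilter ℕ).map fun j => g j t) (by
          rw [le_principal_iff, Ultrafilter.mem_coe, Ultrafilter.mem_map]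
          exact mem_of_superset univ_mem fun j _ => hK j t h.1 h.2)
      exact ⟨a, fun _ _ => ha⟩
    · exact ⟨x, fun h0 h1 => absurd ⟨h0, h1⟩ h⟩
  choose γ hγ using hlim
  have hη0 : Tendsto (fun j : ℕ => (1 : ℝ) / ((j : ℝ) + 1)) (hyperfilter ℕ : Filter ℕ) (𝓝 0) :=
    tendsto_one_div_add_atTop_nhds_zero_nat.mono_left Nat.hyperfilter_le_atTop
  refine ⟨γ, ?_, ?_, ?_⟩
  · have h1 := hγ 0 le_rfl hD0
    have h2 : (fun j => g j 0) = fun _ => x := funext fun j => hg0 j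
    rw [h2] at h1
    exact tendsto_nhds_unique h1 tendsto_const_nhds
  · refine tendsto_nhds_unique (hγ D hD0 le_rfl) ?_
    rw [tendsto_iff_norm_sub_tendsto_zero]
    have h1 : Tendsto (fun j : ℕ => (1 / ((j : ℝ) + 1) + C * (1 / ((j : ℝ) + 1))) / c)
        (hyperfilter ℕ : Filter ℕ) (𝓝 0) := by
      have h2 := (hη0.add (hη0.const_mul C)).div_const c
      rw [mul_zero, add_zero, zero_div] at h2
      exact h2
    refine squeeze_zero (fun j => norm_nonneg _) (fun j => ?_) h1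
    have h2 := dle _ _ _ _ (hgD j)
    have h3 := (hbl (g j D) y).1
    rw [le_div_iff₀ hc]
    linarith
  · intro s t h0 hst htD
    refine le_of_forall_pos_le_add fun τ hτ => ib2 _ _ _ fun η' hη' => ?_
    set δ : ℝ := min η' (τ / (3 * (C + 1))) with hδ
    have hδ0 : 0 < δ := lt_min hη' (by positivity)
    have hδτ : 3 * (C * δ) ≤ τ := by
      have h1 : δ ≤ τ / (3 * (C + 1)) := min_le_right _ _
      rw [le_div_iff₀ (by positivity)] at h1
      nlinarith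
    have hδη : δ ≤ η' := min_le_left _ _
    have e1 : ∀ᶠ j : ℕ in (hyperfilter ℕ : Filter ℕ), (1 : ℝ) / ((j : ℝ) + 1) < δ :=
      hη0.eventually (gt_mem_nhds hδ0)
    have e2 : ∀ᶠ j : ℕ in (hyperfilter ℕ : Filter ℕ), g j s ∈ Metric.ball (γ s) δ :=
      (hγ s h0 (hst.trans htD)).eventually (Metric.ball_mem_nhds _ hδ0)
    have e3 : ∀ᶠ j : ℕ in (hyperfilter ℕ : Filter ℕ), g j t ∈ Metric.ball (γ t) δ :=
      (hγ t (h0.trans hst) htD).eventually (Metric.ball_mem_nhds _ hδ0)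
    obtain ⟨j, ⟨h1, h2⟩, h3⟩ := ((e1.and e2).and e3).exists
    rw [mem_ball_iff_norm'] at h2
    rw [mem_ball_iff_norm] at h3
    have c1 := one η' (γ s) (g j s) (h2.le.trans hδη)
    have c2 := mono _ η' _ _ _ _ (h1.le.trans hδη) le_rfl (hg j s t h0 hst htD)
    have c3 := one η' (g j t) (γ t) (h3.le.trans hδη)
    have c4 := cat _ _ _ _ _ _ (cat _ _ _ _ _ _ c1 c2) c3
    refine mono _ _ _ _ _ _ le_rfl ?_ c4
    have b1 : d (γ s) (g j s) ≤ C * δ :=
      (hdC _ _).trans (mul_le_mul_of_nonneg_left h2.le hC0)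
    have b2 : d (g j t) (γ t) ≤ C * δ :=
      (hdC _ _).trans (mul_le_mul_of_nonneg_left h3.le hC0)
    have b3 : C * (1 / ((j : ℝ) + 1)) ≤ C * δ := mul_le_mul_of_nonneg_left h1.le hC0
    linarith

end Pool.Agent.Helper66.TC2.G2
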